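import Mathlib
import Pool.Agent.X222.OP.Cnt
import Pool.Agent.X222.OP.Om

set_option autoImplicit false

/-!
# The exponents of the prime factors of an odd perfect number

Let `N` be an odd perfect number.  If `m ∣ v_p + 1` for a prime factor `p` of `N`, then `Φ_d(p)` divides
`σ(p ^ v_p)`, hence `2 N`, for every divisor `d > 1` of `m`.  So `p` avoids, for every prime `r ∤ 2 N`,
the roots of the `τ(m) - 1` polynomials `Φ_d` modulo `r`, besides the class `0`.  Since
`∑_{r ∣ N} 1 / r ≤ 1` this is a sieve of dimension `τ(m)`, uniformly in `N`.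

The sum of `1 / p`, `p ∣ N`, is at least `log 2 - O(1 / log P)`, where `P` is the least prime factor.  If
`Ω(N) < K P ^ 2 / log P`, the primes `p > K P ^ 2` contribute at most `1 / log P`, so at least
`c P ^ 2 / log P` primes `p ≤ K P ^ 2` divide `N`, and all but `o(P ^ 2 / log P)` of them have `v_p ≥ B`,
for each fixed `B`.  With `B` large this is a contradiction.
-/

namespace Pool.Agent.Results.MP_f02ea4_nt.ExponentPattern

/-- **Main theorem.** (1) For each `m ≥ 1` the number of the prime factors `p ≤ x` of an odd perfect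
number `N` with `m ∣ v_p + 1` is at most `C x / (log x) ^ τ(m)`, with `C` depending on `m` only.
(2) `P ^ 2 / log P = o(Ω(N))` for the least prime factor `P` of the odd perfect number `N`. -/
theorem result :
    (∀ m : ℕ, m ≠ 0 → ∃ C : ℝ, 0 < C ∧ ∀ N : ℕ, Odd N → N.Perfect → ∀ x : ℕ, 2 ≤ x →
      (({p ∈ N.primeFactors | p ≤ x ∧ m ∣ N.factorization p + 1}.card : ℕ) : ℝ) ≤
        C * ((x : ℝ) / Real.log x ^ m.divisors.card)) ∧
    (∀ K : ℝ, ∃ C : ℝ, ∀ N : ℕ, Odd N → N.Perfect →
      K * ((N.minFac : ℝ) ^ 2 / Real.log N.minFac) ≤ (N.primeFactorsList.length : ℝ) + C) := by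
  refine ⟨fun m hm => ?_, fun K => ?_⟩
  · obtain ⟨C, hC, h⟩ := Pool.Agent.X222.OP.count_m m hm
    refine ⟨C, hC, fun N _ hperf x hx => ?_⟩
    exact h N hperf.2.ne' ((Nat.perfect_iff_sum_divisors_eq_two_mul hperf.2).1 hperf) x hx
  · obtain ⟨C, h⟩ := Pool.Agent.X222.OP.omega_nat (⌈K⌉₊ + 1) (Nat.le_add_left 1 _)
    refine ⟨C, fun N hodd hperf => ?_⟩
    have h1 := h N hodd hperf
    have h2 : N.primeFactorsList.length = ∑ p ∈ N.primeFactors, N.factorization p := by
      have := ArithmeticFunction.cardFactors_eq_sum_factorization (n := N)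
      rw [ArithmeticFunction.cardFactors_apply, Finsupp.sum, Nat.support_factorization] at this
      exact this
    rw [← h2] at h1
    refine le_trans (mul_le_mul_of_nonneg_right ?_ ?_) h1
    · push_cast
      linarith [Nat.le_ceil K]
    · have : 0 ≤ Real.log (N.minFac : ℝ) := Real.log_natCast_nonneg _
      positivity

end Pool.Agent.Results.MP_f02ea4_nt.ExponentPattern
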