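import Mathlib
import Pool.Agent.X67.Gap

set_option autoImplicit false

/-!
# The deficiency of odd deficient numbers, and the `i`-th smallest prime factor of an odd perfect number

Let `n` be odd with `r` distinct prime factors and `σ(n) < 2 n`. Then `2 n / (2 n - σ(n)) ≤ 2 ^ (4 ^ r)`.
This is a one-sided form of the theorem of Heath-Brown, Cook and Nielsen. The proof (`Gap.lean`) runs the
descent for the numbers `F = ∏_A σ(p ^ e) ∏_T p`, `G = ∏_A p ^ e ∏_T (p - 1)` with one additional
fictitious element `x = 2 n / (2 n - σ(n))`, for which `1 - 1 / x = σ(n) / (2 n)`; when the element `x`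
is used in a step from `U` to `T`, one has `|T| + |U| ≥ 1`, so that this step costs nothing.

Applied to the product `A` of the components of the `i - 1` smallest primes of an odd perfect number `N`
it bounds `2 A / σ(A) = σ(N / A) / (N / A)` from below, so the `i`-th smallest prime factor `p_i` of `N` is
at most `(k - i + 1) (2 ^ (4 ^ (i - 1)) - 1)`.
-/

namespace Pool.Agent.Results.MP_f02ea4_nt.IthSmallestPrime
open Finset
open Pool.Agent.TH907.Opn (sp sp_mul sp_pos sp_gt)

lemma three_le {n p : ℕ} (hodd : Odd n) (hp : p ∈ n.primeFactors) : 3 ≤ p := by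
  have h1 := Nat.prime_of_mem_primeFactors hp
  have h2 : p ≠ 2 := by
    rintro rfl
    have := Nat.dvd_of_mem_primeFactors hp
    exact (Nat.not_even_iff_odd.2 hodd) (even_iff_two_dvd.2 this)
  have := h1.two_le
  omega

lemma sum_divisors_prod (J : Finset ℕ) (e : ℕ → ℕ) (hJ : ∀ p ∈ J, p.Prime) :
    ∑ d ∈ (∏ p ∈ J, p ^ (e p)).divisors, d = ∏ p ∈ J, sp p (e p) := by
  classical
  induction J using Finset.induction_on with
  | empty => simp
  | insert a J ha ih =>
    rw [Finset.prod_insert ha, Finset.prod_insert ha, ← ih (fun p hp => hJ p (Finset.mem_insert_of_mem hp))]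
    have hap := hJ a (Finset.mem_insert_self _ _)
    have hcop : Nat.Coprime (a ^ (e a)) (∏ p ∈ J, p ^ (e p)) := by
      apply Nat.Coprime.pow_left
      apply Nat.Coprime.prod_right
      intro q hq
      apply Nat.Coprime.pow_right
      exact (Nat.coprime_primes hap (hJ q (Finset.mem_insert_of_mem hq))).2 (fun h => ha (h ▸ hq))
    rw [hcop.sum_divisors_mul]
    congr 1
    rw [Nat.sum_divisors_prime_pow hap]
    rfl

/-- `∏ q / (q - 1) ≤ (p + c - 1) / (p - 1)` for `c` different integers `q ≥ p`. -/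
lemma prod_bound (p : ℕ) (hp : 2 ≤ p) (J : Finset ℕ) (hJ : ∀ q ∈ J, p ≤ q) :
    (∏ q ∈ J, q) * (p - 1) ≤ (∏ q ∈ J, (q - 1)) * (p + J.card - 1) := by
  classical
  induction J using Finset.induction_on_max with
  | empty => simp
  | insert m J hm ih =>
    have hmJ : m ∉ J := fun h => lt_irrefl _ (hm m h)
    rw [Finset.prod_insert hmJ, Finset.prod_insert hmJ, Finset.card_insert_of_notMem hmJ]
    have ih' := ih (fun q hq => hJ q (Finset.mem_insert_of_mem hq))
    have hc : J.card ≤ m - p := by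
      have h1 : J ⊆ Finset.Ico p m := fun q hq =>
        Finset.mem_Ico.2 ⟨hJ q (Finset.mem_insert_of_mem hq), hm q hq⟩
      have := Finset.card_le_card h1
      rwa [Nat.card_Ico] at this
    have hpm := hJ m (Finset.mem_insert_self _ _)
    have hs : (p + J.card - 1) * m ≤ (m - 1) * (p + (J.card + 1) - 1) := by
      obtain ⟨s, hs⟩ : ∃ s, p + J.card = s + 1 := ⟨p + J.card - 1, by omega⟩
      obtain ⟨t, ht⟩ : ∃ t, m = t + 1 := ⟨m - 1, by omega⟩
      have h1 : p + (J.card + 1) - 1 = s + 1 := by omega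
      rw [h1, hs, ht]
      simp only [Nat.add_sub_cancel]
      have : s ≤ t := by omega
      nlinarith
    calc m * (∏ q ∈ J, q) * (p - 1) = ((∏ q ∈ J, q) * (p - 1)) * m := by ring
      _ ≤ ((∏ q ∈ J, (q - 1)) * (p + J.card - 1)) * m := Nat.mul_le_mul_right _ ih'
      _ = (∏ q ∈ J, (q - 1)) * ((p + J.card - 1) * m) := by ring
      _ ≤ (∏ q ∈ J, (q - 1)) * ((m - 1) * (p + (J.card + 1) - 1)) := Nat.mul_le_mul_left _ hs
      _ = _ := by ring

/-- **The deficiency of an odd deficient number.** -/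
theorem deficiency (n : ℕ) (hodd : Odd n) (hdef : ∑ d ∈ n.divisors, d < 2 * n) :
    2 * n ≤ 2 ^ (4 ^ n.primeFactors.card) * (2 * n - ∑ d ∈ n.divisors, d) := by
  have hn0 : n ≠ 0 := by
    rintro rfl
    exact absurd hodd (by decide)
  have hIp : ∀ p ∈ n.primeFactors, p.Prime := fun p hp => Nat.prime_of_mem_primeFactors hp
  have he1 : ∀ p ∈ n.primeFactors, 1 ≤ n.factorization p := fun p hp =>
    (hIp p hp).factorization_pos_of_dvd hn0 (Nat.dvd_of_mem_primeFactors hp)
  have h1 : ∏ p ∈ n.primeFactors, p ^ (n.factorization p) = n := by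
    conv_rhs => rw [← Nat.prod_factorization_pow_eq_self hn0]
    rfl
  have h2 : ∏ p ∈ n.primeFactors, sp p (n.factorization p) = ∑ d ∈ n.divisors, d := by
    rw [← sum_divisors_prod _ _ hIp, h1]
  have h := Pool.Agent.X67.Gap.gap n.primeFactors n.factorization hIp (fun p hp => three_le hodd hp)
    he1 (by rw [h1, h2]; exact hdef)
  rw [h1, h2] at h
  exact h

/-- **Primes of odd non-deficient numbers.** -/
theorem nondeficient (n : ℕ) (hodd : Odd n) (hab : 2 * n ≤ ∑ d ∈ n.divisors, d) (p : ℕ)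
    (hp : p ∈ n.primeFactors)
    (hdef : ∑ d ∈ (∏ q ∈ n.primeFactors with q < p, q ^ (n.factorization q)).divisors, d <
      2 * ∏ q ∈ n.primeFactors with q < p, q ^ (n.factorization q)) :
    p ≤ (n.primeFactors.card - #{q ∈ n.primeFactors | q < p}) *
      (2 ^ (4 ^ #{q ∈ n.primeFactors | q < p}) - 1) := by
  classical
  have hn0 : n ≠ 0 := by
    rintro rfl
    exact absurd hodd (by decide)
  have hIp : ∀ p ∈ n.primeFactors, p.Prime := fun p hp => Nat.prime_of_mem_primeFactors hp
  have he1 : ∀ p ∈ n.primeFactors, 1 ≤ n.factorization p := fun p hp =>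
    (hIp p hp).factorization_pos_of_dvd hn0 (Nat.dvd_of_mem_primeFactors hp)
  have h1 : ∏ p ∈ n.primeFactors, p ^ (n.factorization p) = n := by
    conv_rhs => rw [← Nat.prod_factorization_pow_eq_self hn0]
    rfl
  have h2 : ∏ p ∈ n.primeFactors, sp p (n.factorization p) = ∑ d ∈ n.divisors, d := by
    rw [← sum_divisors_prod _ _ hIp, h1]
  set e : ℕ → ℕ := fun q => n.factorization q with he
  set I1 : Finset ℕ := {q ∈ n.primeFactors | q < p} with hI1
  set I2 : Finset ℕ := {q ∈ n.primeFactors | ¬ q < p} with hI2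
  have hs1 : I1 ⊆ n.primeFactors := Finset.filter_subset _ _
  have hs2 : I2 ⊆ n.primeFactors := Finset.filter_subset _ _
  have hsplit : ∀ f : ℕ → ℕ, (∏ q ∈ I1, f q) * ∏ q ∈ I2, f q = ∏ q ∈ n.primeFactors, f q := fun f =>
    Finset.prod_filter_mul_prod_filter_not _ _ _
  have hc : I1.card + I2.card = n.primeFactors.card := Finset.card_filter_add_card_filter_not _
  rw [sum_divisors_prod _ _ (fun q hq => hIp q (hs1 hq))] at hdef
  have hgap := Pool.Agent.X67.Gap.gap I1 e (fun q hq => hIp q (hs1 hq))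
    (fun q hq => three_le hodd (hs1 hq)) (fun q hq => he1 q (hs1 hq)) hdef
  have hp3 := three_le hodd hp
  have hI2p : ∀ q ∈ I2, p ≤ q := fun q hq => by
    have := (Finset.mem_filter.1 hq).2
    omega
  have hpI2 : p ∈ I2 := Finset.mem_filter.2 ⟨hp, lt_irrefl _⟩
  have hb := prod_bound p (by omega) I2 hI2p
  -- the product over `I2`
  have hlt : (∏ q ∈ I2, sp q (e q)) * ∏ q ∈ I2, (q - 1) < (∏ q ∈ I2, q ^ (e q)) * ∏ q ∈ I2, q := by
    rw [← Finset.prod_mul_distrib, ← Finset.prod_mul_distrib]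
    apply Finset.prod_lt_prod_of_nonempty _ _ ⟨p, hpI2⟩
    · intro q hq
      have h3 := three_le hodd (hs2 hq)
      exact Nat.mul_pos sp_pos (by omega)
    · intro q hq
      have h3 := three_le hodd (hs2 hq)
      have h4 := sp_mul (p := q) (n := e q) (by omega)
      rw [← pow_succ]
      omega
  set S1 := ∏ q ∈ I1, sp q (e q) with hS1
  set P1 := ∏ q ∈ I1, q ^ (e q) with hP1
  set S2 := ∏ q ∈ I2, sp q (e q) with hS2
  set P2 := ∏ q ∈ I2, q ^ (e q) with hP2
  set D := ∏ q ∈ I2, (q - 1) with hD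
  set Q := ∏ q ∈ I2, q with hQ
  set M := 2 ^ (4 ^ I1.card) with hM
  have hab' : 2 * (P1 * P2) ≤ S1 * S2 := by
    rw [hsplit, hsplit]
    change 2 * ∏ q ∈ n.primeFactors, q ^ n.factorization q ≤ ∏ q ∈ n.primeFactors, sp q (n.factorization q)
    rw [h1, h2]; exact hab
  have hP2pos : 0 < P2 := Finset.prod_pos (fun q hq => pow_pos (by
    have := three_le hodd (hs2 hq); omega) _)
  have hDpos : 0 < D := Finset.prod_pos (f := fun q => q - 1) (fun q hq => by
    have := three_le hodd (hs2 hq)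
    show 0 < q - 1
    omega)
  have hS1pos : 0 < S1 := Finset.prod_pos (fun q _ => sp_pos)
  have hM1 : 1 ≤ M := Nat.one_le_two_pow
  obtain ⟨m, hm⟩ : ∃ m, M = m + 1 := ⟨M - 1, by omega⟩
  obtain ⟨c, hc'⟩ : ∃ c, p = c + 1 := ⟨p - 1, by omega⟩
  -- `M S1 ≤ (M - 1) 2 P1`
  have hg1 : M * S1 ≤ m * (2 * P1) := by
    have h5 : M * (2 * P1 - S1) + M * S1 = M * (2 * P1) := by
      rw [← Nat.mul_add, Nat.sub_add_cancel hdef.le]
    have h6 : M * (2 * P1) = m * (2 * P1) + 2 * P1 := by rw [hm]; ring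
    omega
  -- `M P2 ≤ (M - 1) S2`
  have hg2 : M * P2 ≤ m * S2 := by
    apply Nat.le_of_mul_le_mul_left _ hS1pos
    calc S1 * (M * P2) = (M * S1) * P2 := by ring
      _ ≤ (m * (2 * P1)) * P2 := Nat.mul_le_mul_right _ hg1
      _ = m * (2 * (P1 * P2)) := by ring
      _ ≤ m * (S1 * S2) := Nat.mul_le_mul_left _ hab'
      _ = _ := by ring
  have hmpos : 0 < m := by
    by_contra hcon
    have : m = 0 := by omega
    rw [this, zero_mul] at hg2
    have : 0 < M * P2 := Nat.mul_pos (by omega) hP2pos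
    omega
  have hcc : p + I2.card - 1 = c + I2.card := by omega
  have hp1 : p - 1 = c := by omega
  rw [hcc, hp1] at hb
  -- `M (p - 1) < (M - 1) (p + c2 - 1)`
  have hfin : M * c < m * (c + I2.card) := by
    apply Nat.lt_of_mul_lt_mul_left (a := P2 * D)
    have hcpos : 0 < c := by omega
    calc P2 * D * (M * c) = (M * P2) * (D * c) := by ring
      _ ≤ (m * S2) * (D * c) := Nat.mul_le_mul_right _ hg2
      _ = (S2 * D) * (m * c) := by ring
      _ < (P2 * Q) * (m * c) := Nat.mul_lt_mul_of_pos_right hlt (Nat.mul_pos hmpos hcpos)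
      _ = (Q * c) * (m * P2) := by ring
      _ ≤ (D * (c + I2.card)) * (m * P2) := Nat.mul_le_mul_right _ hb
      _ = _ := by ring
  have h7 : M * c = m * c + c := by rw [hm]; ring
  have h8 : m * (c + I2.card) = m * c + I2.card * m := by ring
  have hcI : n.primeFactors.card - I1.card = I2.card := by omega
  have hMm : M - 1 = m := by omega
  rw [hcI, hMm]
  omega

lemma prod_rank (f : ℕ → ℕ) (S : Finset ℕ) :
    ∏ p ∈ S, f #{q ∈ S | q < p} = ∏ j ∈ Finset.range S.card, f j := by
  classical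
  induction S using Finset.induction_on_max with
  | empty => simp
  | insert m S hm ih =>
    have hmS : m ∉ S := fun h => lt_irrefl _ (hm m h)
    rw [Finset.prod_insert hmS, Finset.card_insert_of_notMem hmS, Finset.prod_range_succ, ← ih,
      mul_comm]
    congr 1
    · apply Finset.prod_congr rfl
      intro p hp
      congr 2
      ext q
      simp only [Finset.mem_filter, Finset.mem_insert]
      constructor
      · rintro ⟨rfl | h, h2⟩
        · exact absurd (hm p hp) (by omega)
        · exact ⟨h, h2⟩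
      · rintro ⟨h, h2⟩
        exact ⟨Or.inr h, h2⟩
    · congr 1
      rw [Finset.filter_insert, if_neg (lt_irrefl m), Finset.filter_true_of_mem hm]

/-- A proper unitary divisor of a perfect number is deficient. -/
lemma unitary_deficient {N : ℕ} (hperf : Nat.Perfect N) {A B : ℕ} (hAB : A * B = N)
    (hcop : Nat.Coprime A B) (hB : 1 < B) : ∑ d ∈ A.divisors, d < 2 * A := by
  have hN0 : 0 < N := hperf.2
  have hsum := (Nat.perfect_iff_sum_divisors_eq_two_mul hN0).1 hperf
  have hB0 : B ≠ 0 := by omega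
  have hA0 : A ≠ 0 := by
    rintro rfl
    rw [zero_mul] at hAB
    omega
  rw [← hAB, hcop.sum_divisors_mul] at hsum
  have h1 : B < ∑ d ∈ B.divisors, d := by
    have h2 : ({1, B} : Finset ℕ) ⊆ B.divisors := by
      intro x hx
      rcases Finset.mem_insert.1 hx with rfl | hx
      · simp [hB0]
      · rw [Finset.mem_singleton.1 hx]; simp [hB0]
    have h3 := Finset.sum_le_sum_of_subset (f := fun d : ℕ => d) h2
    rw [Finset.sum_pair (by omega)] at h3
    omega
  by_contra hcon
  push Not at hcon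
  have hs0 : 0 < ∑ d ∈ A.divisors, d := by omega
  have h4 : 2 * (A * B) < (∑ d ∈ A.divisors, d) * (∑ d ∈ B.divisors, d) :=
    calc 2 * (A * B) = (2 * A) * B := by ring
      _ ≤ (∑ d ∈ A.divisors, d) * B := Nat.mul_le_mul_right _ hcon
      _ < _ := Nat.mul_lt_mul_of_pos_left h1 hs0
  omega

theorem perfect (N : ℕ) (hodd : Odd N) (hperf : Nat.Perfect N) (p : ℕ) (hp : p ∈ N.primeFactors) :
    p ≤ (N.primeFactors.card - #{q ∈ N.primeFactors | q < p}) *
      (2 ^ (4 ^ #{q ∈ N.primeFactors | q < p}) - 1) := by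
  classical
  have hN0 : N ≠ 0 := hperf.2.ne'
  have hsum := (Nat.perfect_iff_sum_divisors_eq_two_mul hperf.2).1 hperf
  have hIp : ∀ p ∈ N.primeFactors, p.Prime := fun p hp => Nat.prime_of_mem_primeFactors hp
  apply nondeficient N hodd hsum.ge p hp
  have h1 : ∏ p ∈ N.primeFactors, p ^ (N.factorization p) = N := by
    conv_rhs => rw [← Nat.prod_factorization_pow_eq_self hN0]
    rfl
  have h2 : (∏ q ∈ N.primeFactors with q < p, q ^ (N.factorization q)) *
      (∏ q ∈ N.primeFactors with ¬ q < p, q ^ (N.factorization q)) = N := by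
    conv_rhs => rw [← h1]
    exact Finset.prod_filter_mul_prod_filter_not _ _ _
  apply unitary_deficient hperf h2
  · apply Nat.Coprime.prod_left
    intro q hq
    apply Nat.Coprime.prod_right
    intro r hr
    apply Nat.Coprime.pow
    have hq' := Finset.mem_filter.1 hq
    have hr' := Finset.mem_filter.1 hr
    exact (Nat.coprime_primes (hIp q hq'.1) (hIp r hr'.1)).2 (by rintro rfl; exact hr'.2 hq'.2)
  · have h3 : p ∣ ∏ q ∈ N.primeFactors with ¬ q < p, q ^ (N.factorization q) := by
      have h4 : p ∈ N.primeFactors.filter (fun q => ¬ q < p) :=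
        Finset.mem_filter.2 ⟨hp, lt_irrefl _⟩
      refine dvd_trans (dvd_pow_self p ?_) (Finset.dvd_prod_of_mem _ h4)
      exact ((hIp p hp).factorization_pos_of_dvd hN0 (Nat.dvd_of_mem_primeFactors hp)).ne'
    have h5 : 0 < ∏ q ∈ N.primeFactors with ¬ q < p, q ^ (N.factorization q) := by
      apply Nat.pos_of_ne_zero
      intro h
      rw [h, mul_zero] at h2
      exact hN0 h2.symm
    have h6 := Nat.le_of_dvd h5 h3
    have h7 := (hIp p hp).two_le
    omega

lemma four_pow (k : ℕ) : 3 * (∑ j ∈ Finset.range k, 4 ^ j) + 1 = 4 ^ k := by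
  induction k with
  | zero => simp
  | succ k ih => rw [Finset.sum_range_succ, pow_succ]; omega

theorem radical (N : ℕ) (hodd : Odd N) (hperf : Nat.Perfect N) :
    2 * (∏ p ∈ N.primeFactors, p) ^ 3 ≤
      (N.primeFactors.card).factorial ^ 3 * 2 ^ (4 ^ N.primeFactors.card) := by
  classical
  set k := N.primeFactors.card with hk
  have h1 : ∏ p ∈ N.primeFactors, p ≤ ∏ p ∈ N.primeFactors,
      (k - #{q ∈ N.primeFactors | q < p}) * 2 ^ (4 ^ #{q ∈ N.primeFactors | q < p}) := by
    apply Finset.prod_le_prod'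
    intro p hp
    exact (perfect N hodd hperf p hp).trans (Nat.mul_le_mul_left _ (Nat.sub_le _ _))
  rw [prod_rank (fun j => (k - j) * 2 ^ (4 ^ j)) N.primeFactors, ← hk, Finset.prod_mul_distrib,
    ← Nat.descFactorial_eq_prod_range, Nat.descFactorial_self, Finset.prod_pow_eq_pow_sum] at h1
  have h2 := four_pow k
  calc 2 * (∏ p ∈ N.primeFactors, p) ^ 3
      ≤ 2 * (k.factorial * 2 ^ (∑ j ∈ Finset.range k, 4 ^ j)) ^ 3 := by gcongr
    _ = k.factorial ^ 3 * 2 ^ (3 * (∑ j ∈ Finset.range k, 4 ^ j) + 1) := by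
        rw [mul_pow, ← pow_mul, pow_succ 2 (3 * _), mul_comm 3 _]; ring
    _ = _ := by rw [h2]

/-- **Main theorem.**

(1) Every odd number `n` with `r` distinct prime factors and `σ(n) < 2 n` satisfies
`2 n ≤ 2 ^ (4 ^ r) (2 n - σ(n))`.

(2) Let `n` be odd with `k` distinct prime factors and `σ(n) ≥ 2 n`, and let `p` be a prime factor of `n`
such that exactly `j` prime factors of `n` are smaller than `p`. If the product `A` of the prime powers
`q ^ (v_q n)`, `q < p`, has `σ(A) < 2 A`, then `p ≤ (k - j) (2 ^ (4 ^ j) - 1)`.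

(3) Let `N` be an odd perfect number with `k` distinct prime factors and `p` a prime factor of `N` such
that exactly `j` prime factors of `N` are smaller than `p`. Then `p ≤ (k - j) (2 ^ (4 ^ j) - 1)`.

(4) The product of the prime factors of an odd perfect number with `k` distinct prime factors is at most
`k! 2 ^ ((4 ^ k - 1) / 3)`. -/
theorem result :
    (∀ n : ℕ, Odd n → ∑ d ∈ n.divisors, d < 2 * n →
      2 * n ≤ 2 ^ (4 ^ n.primeFactors.card) * (2 * n - ∑ d ∈ n.divisors, d)) ∧
    (∀ n : ℕ, Odd n → 2 * n ≤ ∑ d ∈ n.divisors, d → ∀ p ∈ n.primeFactors,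
      (∑ d ∈ (∏ q ∈ n.primeFactors with q < p, q ^ (n.factorization q)).divisors, d <
        2 * ∏ q ∈ n.primeFactors with q < p, q ^ (n.factorization q)) →
      p ≤ (n.primeFactors.card - #{q ∈ n.primeFactors | q < p}) *
        (2 ^ (4 ^ #{q ∈ n.primeFactors | q < p}) - 1)) ∧
    (∀ N : ℕ, Odd N → Nat.Perfect N → ∀ p ∈ N.primeFactors,
      p ≤ (N.primeFactors.card - #{q ∈ N.primeFactors | q < p}) *
        (2 ^ (4 ^ #{q ∈ N.primeFactors | q < p}) - 1)) ∧
    (∀ N : ℕ, Odd N → Nat.Perfect N → 2 * (∏ p ∈ N.primeFactors, p) ^ 3 ≤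
      (N.primeFactors.card).factorial ^ 3 * 2 ^ (4 ^ N.primeFactors.card)) :=
  ⟨deficiency, nondeficient, perfect, radical⟩

end Pool.Agent.Results.MP_f02ea4_nt.IthSmallestPrime
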