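import Mathlib
import Pool.Agent.X61.OP.Sig

/-!
# The part of an odd perfect number composed of given primes

For a finite set `S` of primes the part of `σ(N)` composed of the primes in `S` is at most
`C N ^ ε` times the product of the primes outside `S` which divide `N`.  Therefore the part of an odd
perfect number `N` composed of the primes in `S` is at most `C N ^ (4 / 9 + ε)`.
-/

set_option autoImplicit false

namespace Pool.Agent.Results.MP_f02ea4_nt.SmoothPartHalf

open Pool.Agent.X61.OP Pool.Agent.X61.CU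

/-- the largest divisor of `n` all of whose prime factors are in `S` -/
def part (S : Finset ℕ) (n : ℕ) : ℕ := ∏ p ∈ S, p ^ n.factorization p

/-- the sum of the divisors -/
def sigma (n : ℕ) : ℕ := ∑ d ∈ n.divisors, d

lemma part_eq {S : Finset ℕ} (hS : ∀ p ∈ S, p.Prime) (n : ℕ) : X61.CU.part S (n : ℤ) = part S n := by
  rw [part_cast]
  unfold part
  exact Finset.prod_congr rfl fun p hp => by rw [Nat.factorization_def _ (hS p hp)]

/-- **Main theorem.** -/
theorem result (S : Finset ℕ) (hS : ∀ p ∈ S, p.Prime) (ε : ℝ) (hε : 0 < ε) :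
    ∃ C : ℝ, 0 < C ∧
      (∀ N : ℕ, 0 < N →
        (part S (sigma N) : ℝ) ≤ C * (N : ℝ) ^ ε * ∏ q ∈ N.primeFactors \ S, (q : ℝ)) ∧
      (∀ N : ℕ, 0 < N → N ∣ sigma N →
        (part S N : ℝ) ≤ C * (N : ℝ) ^ ε * ∏ q ∈ N.primeFactors \ S, (q : ℝ)) ∧
      (∀ N : ℕ, Odd N → N.Perfect → (part S N : ℝ) ≤ C * (N : ℝ) ^ ((4 : ℝ) / 9 + ε)) ∧
      (∀ N : ℕ, Odd N → N.Perfect → (∀ q ∉ S, q.Prime → q ∣ N → q ^ 2 ∣ N) →
        (part S N : ℝ) ≤ C * (N : ℝ) ^ ((1 : ℝ) / 3 + ε)) := by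
  obtain ⟨C, hC, h⟩ := sigma_part S hS ε hε
  have h1 : ∀ N : ℕ, 0 < N →
      (part S (sigma N) : ℝ) ≤ C * (N : ℝ) ^ ε * ∏ q ∈ N.primeFactors \ S, (q : ℝ) := by
    intro N hN
    have := h N hN
    rwa [part_eq hS] at this
  have h2 : ∀ N : ℕ, 0 < N → N ∣ sigma N →
      (part S N : ℝ) ≤ C * (N : ℝ) ^ ε * ∏ q ∈ N.primeFactors \ S, (q : ℝ) := by
    intro N hN hd
    have h3 : part S N ≤ part S (sigma N) := by
      have h4 : sigma N ≠ 0 := by
        have : 0 < sigma N := Finset.sum_pos (fun d hd => Nat.pos_of_mem_divisors hd)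
          ⟨1, Nat.one_mem_divisors.2 hN.ne'⟩
        omega
      have := part_dvd hS h4 hd
      rwa [part_eq hS, part_eq hS] at this
    exact (by exact_mod_cast h3 : (part S N : ℝ) ≤ part S (sigma N)).trans (h1 N hN)
  have hpd : ∀ N : ℕ, N.Perfect → N ∣ sigma N := fun N hN =>
    ⟨2, by unfold sigma; rw [(Nat.perfect_iff_sum_divisors_eq_two_mul hN.2).1 hN]; ring⟩
  have hD : (0 : ℝ) < (C ^ 2 * 2) ^ ((1 : ℝ) / 3) := by positivity
  have hD' : (0 : ℝ) < (C ^ 2 * 1) ^ ((1 : ℝ) / 3) := by positivity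
  have hexp : ∀ (N : ℕ) (a b B : ℝ), 1 ≤ (N : ℝ) → 0 < B → (b + 2 * ε) / 3 ≤ a →
      (part S N : ℝ) ≤ C * (N : ℝ) ^ ε * ∏ q ∈ N.primeFactors \ S, (q : ℝ) →
      (part S N : ℝ) * (∏ q ∈ N.primeFactors \ S, (q : ℝ)) ^ 2 ≤ B * (N : ℝ) ^ b →
      (part S N : ℝ) ≤ (C ^ 2 * B) ^ ((1 : ℝ) / 3) * (N : ℝ) ^ a := by
    intro N a b B hN hB hab h5 h6
    refine (expo (Nat.cast_nonneg _) hN hC hB h5 h6).trans ?_
    exact mul_le_mul_of_nonneg_left (Real.rpow_le_rpow_of_exponent_le hN hab) (by positivity)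
  refine ⟨C + (C ^ 2 * 2) ^ ((1 : ℝ) / 3) + (C ^ 2 * 1) ^ ((1 : ℝ) / 3), by positivity,
    fun N hN => ?_, fun N hN hd => ?_, fun N hodd hperf => ?_, fun N hodd hperf hsq => ?_⟩
  · refine (h1 N hN).trans ?_
    rw [mul_assoc, mul_assoc]
    refine mul_le_mul_of_nonneg_right (by linarith) ?_
    exact mul_nonneg (by positivity) (Finset.prod_nonneg fun _ _ => Nat.cast_nonneg _)
  · refine (h2 N hN hd).trans ?_
    rw [mul_assoc, mul_assoc]
    refine mul_le_mul_of_nonneg_right (by linarith) ?_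
    exact mul_nonneg (by positivity) (Finset.prod_nonneg fun _ _ => Nat.cast_nonneg _)
  · have hN : (1 : ℝ) ≤ N := by exact_mod_cast hperf.2
    have h0 : (0 : ℝ) ≤ (N : ℝ) ^ ((4 : ℝ) / 9 + ε) := by positivity
    by_cases hR : ∃ q ∈ N.primeFactors \ S, N.factorization q = 1
    · have h7 := rad_sq S hS hodd hperf hR
      rw [part_eq hS] at h7
      have h8 := hexp N ((4 : ℝ) / 9 + ε) (4 / 3) 2 hN two_pos (by linarith)
        (h2 N hperf.2 (hpd N hperf)) h7
      refine h8.trans (mul_le_mul_of_nonneg_right (by linarith) h0)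
    · push Not at hR
      have h7 := rad_sq' S hS hperf.2.ne' (fun q hq => by
        have hqN := (Finset.mem_sdiff.1 hq).1
        have := (Nat.prime_of_mem_primeFactors hqN).factorization_pos_of_dvd hperf.2.ne'
          (Nat.dvd_of_mem_primeFactors hqN)
        have := hR q hq
        omega)
      rw [part_eq hS] at h7
      have h8 := hexp N ((4 : ℝ) / 9 + ε) 1 1 hN one_pos (by linarith)
        (h2 N hperf.2 (hpd N hperf)) (by rw [Real.rpow_one, one_mul]; exact h7)
      refine h8.trans (mul_le_mul_of_nonneg_right (by linarith) h0)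
  · have hN : (1 : ℝ) ≤ N := by exact_mod_cast hperf.2
    have h7 := rad_sq' S hS hperf.2.ne' (fun q hq => by
        obtain ⟨hqN, hqS⟩ := Finset.mem_sdiff.1 hq
        have hqp := Nat.prime_of_mem_primeFactors hqN
        exact (hqp.pow_dvd_iff_le_factorization hperf.2.ne').1
          (hsq q hqS hqp (Nat.dvd_of_mem_primeFactors hqN)))
    rw [part_eq hS] at h7
    have h8 := hexp N ((1 : ℝ) / 3 + ε) 1 1 hN one_pos (by linarith)
      (h2 N hperf.2 (hpd N hperf)) (by rw [Real.rpow_one, one_mul]; exact h7)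
    refine h8.trans (mul_le_mul_of_nonneg_right (by linarith) (by positivity))

end Pool.Agent.Results.MP_f02ea4_nt.SmoothPartHalf
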