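import Mathlib

set_option autoImplicit false

/-!
# The number of odd perfect numbers up to `x`

Wirsing's theorem bounds the number of odd perfect numbers up to `x` by `x ^ (W / log log x)`. We show
that every constant `W > (log 2) / 2` is admissible for large `x`.

Proof. Let `A` be a unitary divisor `≠ 1, N` of the odd perfect number `N`. Then `σ(A)` has an odd prime
factor which does not divide `A`, and any such prime divides `N`. So `N` can be recovered from one prime
power component and the sequence of the other exponents, taken in the order in which the primes are found.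
For the primes `≤ y` a table of the exponents is used; the exponents `v` of the primes `> y` are even with
one exception (Euler) and their sum is at most `log x / log y`, so there are about `2 ^ (log x / (2 log y))`
possibilities for them. Now put `y = (log x) ^ (1 - δ)`.
-/

namespace Pool.Agent.Results.MP_f02ea4_nt.WirsingConstant

open Finset

/-- sum of divisors -/
def sg (n : ℕ) : ℕ := ∑ d ∈ n.divisors, d

theorem sg_mul {m n : ℕ} (h : m.Coprime n) : sg (m * n) = sg m * sg n :=
  Nat.Coprime.sum_divisors_mul h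

theorem sg_ge {n : ℕ} (hn : 0 < n) : n ≤ sg n :=
  Finset.single_le_sum (f := fun d => d) (fun _ _ => Nat.zero_le _) (Nat.mem_divisors_self n hn.ne')

theorem sg_gt {n : ℕ} (hn : 1 < n) : n < sg n := by
  have h1 : ({1, n} : Finset ℕ) ⊆ n.divisors := by
    intro d hd
    rw [mem_insert, mem_singleton] at hd
    rcases hd with rfl | rfl
    · exact Nat.one_mem_divisors.2 (by omega)
    · exact Nat.mem_divisors_self d (by omega)
  have h2 : ∑ d ∈ ({1, n} : Finset ℕ), d ≤ sg n :=
    Finset.sum_le_sum_of_subset h1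
  rw [Finset.sum_pair (by omega)] at h2
  omega

/-! ### Euler -/

theorem sum_parity (p e : ℕ) (hp : Odd p) : (∑ k ∈ range e, p ^ k) % 2 = e % 2 := by
  induction e with
  | zero => simp
  | succ e ih =>
    rw [sum_range_succ, Nat.add_mod, ih]
    have : p ^ e % 2 = 1 := Nat.odd_iff.1 hp.pow
    omega

/-- at most one exponent is odd -/
theorem euler {N : ℕ} (hodd : Odd N) (hperf : N.Perfect) (p q : ℕ) (hpq : p ≠ q)
    (hp : N.factorization p % 2 = 1) : N.factorization q % 2 = 0 := by
  classical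
  by_contra hcon
  have hN0 : N ≠ 0 := hperf.2.ne'
  have hsum : ∑ d ∈ N.divisors, d = 2 * N := (Nat.perfect_iff_sum_divisors_eq_two_mul hperf.2).1 hperf
  rw [Nat.sum_divisors hN0] at hsum
  have hpo : ∀ p ∈ N.primeFactors, Odd p := by
    intro p hp
    exact Odd.of_dvd_nat hodd (Nat.dvd_of_mem_primeFactors hp)
  have hmem : ∀ r, N.factorization r % 2 = 1 → r ∈ N.primeFactors := by
    intro r hr
    rw [← Nat.support_factorization, Finsupp.mem_support_iff]
    omega
  have he : ∀ q ∈ N.primeFactors, N.factorization q % 2 = 1 →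
      2 ∣ ∑ k ∈ range (N.factorization q + 1), q ^ k := by
    intro q hq h
    rw [Nat.dvd_iff_mod_eq_zero, sum_parity _ _ (hpo q hq)]
    omega
  have hq : N.factorization q % 2 = 1 := by omega
  have h4 : 2 * 2 ∣ 2 * N := by
    rw [← hsum, ← mul_prod_erase _ _ (hmem p hp)]
    apply Nat.mul_dvd_mul (he p (hmem p hp) hp)
    exact (he q (hmem q hq) hq).trans (dvd_prod_of_mem _ (mem_erase.2 ⟨hpq.symm, hmem q hq⟩))
  have h5 : 2 ∣ N := Nat.dvd_of_mul_dvd_mul_left (by norm_num) h4
  rw [Nat.odd_iff] at hodd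
  omega

/-! ### The next prime -/

/-- an odd prime factor of `σ(A)` which does not divide `A` -/
def New (A p : ℕ) : Prop := p.Prime ∧ p ≠ 2 ∧ p ∣ sg A ∧ ¬ p ∣ A

theorem new_dvd {A B p : ℕ} (_hodd : Odd (A * B)) (hperf : (A * B).Perfect) (hc : A.Coprime B)
    (hp : New A p) : p ∣ B := by
  obtain ⟨h1, h2, h3, h4⟩ := hp
  have hsum : sg (A * B) = 2 * (A * B) := (Nat.perfect_iff_sum_divisors_eq_two_mul hperf.2).1 hperf
  rw [sg_mul hc] at hsum
  have h5 : p ∣ 2 * (A * B) := by rw [← hsum]; exact h3.mul_right _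
  rcases (h1.dvd_mul).1 h5 with h | h
  · exact absurd ((Nat.prime_dvd_prime_iff_eq h1 Nat.prime_two).1 h) h2
  · rcases (h1.dvd_mul).1 h with h | h
    · exact absurd h h4
    · exact h

theorem exists_new {A B : ℕ} (hA : 1 < A) (hB : 1 < B) (hodd : Odd (A * B)) (hperf : (A * B).Perfect)
    (hc : A.Coprime B) : ∃ p, New A p := by
  by_contra hcon
  have hsum : sg (A * B) = 2 * (A * B) := (Nat.perfect_iff_sum_divisors_eq_two_mul hperf.2).1 hperf
  rw [sg_mul hc] at hsum
  have hBo : Odd B := (Nat.odd_mul.1 hodd).2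
  have hcop : B.Coprime (sg A) := by
    rw [Nat.coprime_iff_gcd_eq_one]
    by_contra hg
    obtain ⟨r, hr, hrd⟩ := Nat.exists_prime_and_dvd hg
    have hrB : r ∣ B := hrd.trans (Nat.gcd_dvd_left _ _)
    have hrA : r ∣ sg A := hrd.trans (Nat.gcd_dvd_right _ _)
    have hr2 : r ≠ 2 := by
      rintro rfl
      exact (Nat.not_even_iff_odd.2 hBo) (even_iff_two_dvd.2 hrB)
    apply hcon
    refine ⟨r, hr, hr2, hrA, ?_⟩
    intro h
    have : r ∣ Nat.gcd A B := Nat.dvd_gcd h hrB
    rw [hc] at this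
    exact hr.one_lt.ne' (Nat.dvd_one.1 this)
  have h1 : B ∣ sg B := by
    apply hcop.dvd_of_dvd_mul_left
    rw [hsum]
    exact ⟨2 * A, by ring⟩
  obtain ⟨t, ht⟩ := h1
  have h2 := sg_gt hB
  have h3 := sg_gt hA
  have h4 : 2 ≤ t := by
    by_contra h
    have : t ≤ 1 := by omega
    interval_cases t <;> omega
  have h5 : A * (B * 2) < sg A * sg B := by
    calc A * (B * 2) < sg A * (B * 2) := Nat.mul_lt_mul_of_pos_right h3 (by omega)
      _ ≤ sg A * sg B := by
          rw [ht]
          exact Nat.mul_le_mul_left _ (Nat.mul_le_mul_left _ h4)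
  rw [hsum] at h5
  nlinarith

/-! ### The budget -/

/-- The number of prime factors `> y` of `B` with multiplicity. -/
def Lam (y B : ℕ) : ℕ := ∑ p ∈ B.primeFactors.filter (fun p => y < p), B.factorization p

theorem Lam_mul {y p v B : ℕ} (hp : p.Prime) (hv : 1 ≤ v) (hB : B ≠ 0) (hpB : ¬ p ∣ B) :
    Lam y (p ^ v * B) = (if y < p then v else 0) + Lam y B := by
  classical
  have hc : (p ^ v).Coprime B := Nat.Coprime.pow_left _ ((Nat.Prime.coprime_iff_not_dvd hp).2 hpB)
  have hpf : (p ^ v * B).primeFactors = insert p B.primeFactors := by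
    rw [hc.primeFactors_mul, Nat.primeFactors_prime_pow (by omega) hp]
    rfl
  have hfac : ∀ q, (p ^ v * B).factorization q = (if q = p then v else 0) + B.factorization q := by
    intro q
    rw [Nat.factorization_mul (pow_ne_zero _ hp.ne_zero) hB, Finsupp.add_apply, hp.factorization_pow,
      Finsupp.single_apply]
    simp only [eq_comm]
  have hpn : p ∉ B.primeFactors := fun h => hpB (Nat.dvd_of_mem_primeFactors h)
  have hp0 : B.factorization p = 0 := Nat.factorization_eq_zero_of_not_dvd hpB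
  unfold Lam
  rw [hpf, filter_insert]
  have hrest : ∑ q ∈ B.primeFactors.filter (fun p => y < p), (p ^ v * B).factorization q =
      ∑ q ∈ B.primeFactors.filter (fun p => y < p), B.factorization q := by
    apply sum_congr rfl
    intro q hq
    rw [mem_filter] at hq
    rw [hfac, if_neg, zero_add]
    rintro rfl
    exact hpn hq.1
  by_cases h : y < p
  · rw [if_pos h, if_pos h, sum_insert (by rw [mem_filter]; exact fun h' => hpn h'.1), hrest, hfac,
      if_pos rfl, hp0, add_zero]
  · rw [if_neg h, if_neg h, hrest, zero_add]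

theorem Lam_pow_le {y B : ℕ} (hB : B ≠ 0) : y ^ Lam y B ≤ B := by
  unfold Lam
  rw [← prod_pow_eq_pow_sum]
  calc ∏ p ∈ B.primeFactors.filter (fun p => y < p), y ^ B.factorization p
      ≤ ∏ p ∈ B.primeFactors.filter (fun p => y < p), p ^ B.factorization p := by
        apply prod_le_prod' 
        intro p hp
        rw [mem_filter] at hp
        exact Nat.pow_le_pow_left hp.2.le _
    _ ≤ ∏ p ∈ B.primeFactors, p ^ B.factorization p := by
        apply prod_le_prod_of_subset_of_one_le' (filter_subset _ _)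
        intro p hp _
        exact Nat.one_le_pow _ _ (Nat.prime_of_mem_primeFactors hp).pos
    _ = B := Nat.prod_factorization_pow_eq_self hB

/-! ### Counting -/

/-- The possible cofactors. -/
def T (X y A s b : ℕ) : Set ℕ :=
  {B | Odd (A * B) ∧ (A * B).Perfect ∧ A * B ≤ X ∧ A.Coprime B ∧ Lam y B ≤ s ∧
    (b = 0 → ∀ q, B.factorization q % 2 = 0)}

/-- The small odd primes which do not divide `A`. -/
def M (y A : ℕ) : Finset ℕ := (Icc 3 y).filter (fun p => p.Prime ∧ ¬ p ∣ A)

/-- The number of exponent sequences. -/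
def F (b s : ℕ) : ℕ := if b = 0 then 2 ^ (s / 2) else ((s + 1) / 2 + 1) * 2 ^ ((s + 1) / 2)

theorem F_pos (b s : ℕ) : 1 ≤ F b s := by
  unfold F
  split_ifs
  · exact Nat.one_le_two_pow
  · exact Nat.mul_pos (by omega) (by positivity)

/-- The summand for the exponent `v`. -/
def phi (b v u : ℕ) : ℕ := if v % 2 = 0 then F b u else if b = 0 then 0 else F 0 u

/-- The sum over the exponents. -/
def Ssum (b s : ℕ) : ℕ := ∑ i ∈ range s, phi b (i + 1) (s - (i + 1))

theorem Ssum_step (b s : ℕ) : Ssum b (s + 2) = phi b 1 (s + 1) + F b s + Ssum b s := by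
  unfold Ssum
  rw [sum_range_succ', sum_range_succ']
  have h1 : ∀ i ∈ range s, phi b (i + 1 + 1 + 1) (s + 2 - (i + 1 + 1 + 1)) = phi b (i + 1) (s - (i + 1)) := by
    intro i _
    have : s + 2 - (i + 1 + 1 + 1) = s - (i + 1) := by omega
    rw [this]
    unfold phi
    have : (i + 1 + 1 + 1) % 2 = (i + 1) % 2 := by omega
    rw [this]
  rw [sum_congr rfl h1]
  have h2 : phi b (0 + 1 + 1) (s + 2 - (0 + 1 + 1)) = F b s := by
    have : s + 2 - (0 + 1 + 1) = s := by omega
    rw [this]
    simp [phi]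
  have h3 : phi b (0 + 1) (s + 2 - (0 + 1)) = phi b 1 (s + 1) := by
    have : s + 2 - (0 + 1) = s + 1 := by omega
    rw [this]
  rw [h2, h3]
  ring

theorem Ssum_zero_lt (s : ℕ) : Ssum 0 s < F 0 s := by
  induction s using Nat.twoStepInduction with
  | zero => simp [Ssum, F]
  | one => simp [Ssum, F, phi]
  | more s ih _ =>
    rw [Ssum_step]
    have h1 : phi 0 1 (s + 1) = 0 := by simp [phi]
    have h2 : F 0 (s + 2) = 2 * F 0 s := by
      simp only [F, if_true]
      have : (s + 2) / 2 = s / 2 + 1 := by omega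
      rw [this, pow_succ, mul_comm]
    omega

theorem Ssum_le (b s : ℕ) : Ssum b s ≤ F b s := by
  rcases Nat.eq_zero_or_pos b with rfl | hb
  · exact (Ssum_zero_lt s).le
  · have hb0 : b ≠ 0 := by omega
    induction s using Nat.twoStepInduction with
    | zero => simp [Ssum]
    | one => simp [Ssum, F, phi, hb0]
    | more s ih _ =>
      rw [Ssum_step]
      have h1 : phi b 1 (s + 1) = 2 ^ ((s + 1) / 2) := by simp [phi, F, hb0]
      have h2 : F b s = ((s + 1) / 2 + 1) * 2 ^ ((s + 1) / 2) := by simp [F, hb0]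
      have h3 : F b (s + 2) = ((s + 1) / 2 + 2) * (2 * 2 ^ ((s + 1) / 2)) := by
        simp only [F, hb0, if_false]
        have : (s + 2 + 1) / 2 = (s + 1) / 2 + 1 := by omega
        rw [this, pow_succ]
        ring
      rw [h1, h3]
      rw [h2] at ih ⊢
      nlinarith [Nat.one_le_two_pow (n := (s + 1) / 2)]

theorem factorization_mul_apply {p v B : ℕ} (hp : p.Prime) (hB : B ≠ 0) (q : ℕ) :
    (p ^ v * B).factorization q = (if p = q then v else 0) + B.factorization q := by
  rw [Nat.factorization_mul (pow_ne_zero _ hp.ne_zero) hB, Finsupp.add_apply, hp.factorization_pow,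
      Finsupp.single_apply]

theorem split {X y A s b p B : ℕ} (hA : 1 < A) (hN : New A p) (hB : B ∈ T X y A s b) :
    ∃ v B', 1 ≤ v ∧ B = p ^ v * B' ∧ ¬ p ∣ B' ∧ B' ≠ 0 ∧ p ^ v ≤ X ∧
      Lam y B = (if y < p then v else 0) + Lam y B' ∧
      (b = 0 → v % 2 = 0) ∧
      B' ∈ T X y (A * p ^ v) (s - (if y < p then v else 0)) (if v % 2 = 0 then b else 0) := by
  obtain ⟨h1, h2, h3, h4, h5, h6⟩ := hB
  have hpB := new_dvd h1 h2 h4 hN
  have hAB0 : A * B ≠ 0 := h2.2.ne'
  have hB0 : B ≠ 0 := right_ne_zero_of_mul hAB0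
  have hA0 : A ≠ 0 := left_ne_zero_of_mul hAB0
  obtain ⟨v, B', hpB', hBe⟩ := Nat.exists_eq_pow_mul_and_not_dvd hB0 p hN.1.ne_one
  have hB'0 : B' ≠ 0 := by
    rintro rfl
    simp at hpB'
  have hv : 1 ≤ v := by
    by_contra h
    have : v = 0 := by omega
    rw [this, pow_zero, one_mul] at hBe
    rw [hBe] at hpB
    exact hpB' hpB
  have hLam : Lam y B = (if y < p then v else 0) + Lam y B' := by
    rw [hBe]
    exact Lam_mul hN.1 hv hB'0 hpB'
  have hfac : ∀ q, B.factorization q = (if p = q then v else 0) + B'.factorization q := by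
    intro q
    rw [hBe]
    exact factorization_mul_apply hN.1 hB'0 q
  have hfp : B.factorization p = v := by
    rw [hfac, if_pos rfl, Nat.factorization_eq_zero_of_not_dvd hpB', add_zero]
  have hpow : p ^ v ≤ X := by
    refine le_trans ?_ h3
    rw [hBe]
    calc p ^ v = 1 * (p ^ v * 1) := by ring
      _ ≤ A * (p ^ v * B') := Nat.mul_le_mul hA.le (Nat.mul_le_mul_left _ (Nat.pos_of_ne_zero hB'0))
  have hb0 : b = 0 → v % 2 = 0 := by
    intro hb
    rw [← hfp]
    exact h6 hb p
  refine ⟨v, B', hv, hBe, hpB', hB'0, hpow, hLam, hb0, ?_⟩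
  have hassoc : A * p ^ v * B' = A * B := by rw [hBe, mul_assoc]
  refine ⟨by rw [hassoc]; exact h1, by rw [hassoc]; exact h2, by rw [hassoc]; exact h3, ?_, ?_, ?_⟩
  · apply Nat.Coprime.mul_left
    · rw [hBe] at h4
      exact Nat.Coprime.coprime_mul_left_right h4
    · exact Nat.Coprime.pow_left _ ((Nat.Prime.coprime_iff_not_dvd hN.1).2 hpB')
  · omega
  · intro hif q
    by_cases hq : p = q
    · rw [← hq, Nat.factorization_eq_zero_of_not_dvd hpB']
    · have hBq : B'.factorization q = B.factorization q := by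
        rw [hfac q, if_neg hq, zero_add]
      rw [hBq]
      by_cases hve : v % 2 = 0
      · rw [if_pos hve] at hif
        exact h6 hif q
      · -- the exponent of `p` is odd
        have hAp : A.factorization p = 0 := Nat.factorization_eq_zero_of_not_dvd hN.2.2.2
        have hABf : ∀ r, (A * B).factorization r = A.factorization r + B.factorization r := by
          intro r
          rw [Nat.factorization_mul hA0 hB0, Finsupp.add_apply]
        have h7 : (A * B).factorization p % 2 = 1 := by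
          rw [hABf, hAp, zero_add, hfp]
          omega
        have h8 := euler h1 h2 p q hq h7
        by_cases hqB : q ∣ B
        · by_cases hqp : q.Prime
          · have hqA : A.factorization q = 0 := by
              apply Nat.factorization_eq_zero_of_not_dvd
              intro hqA
              have : q ∣ Nat.gcd A B := Nat.dvd_gcd hqA hqB
              rw [h4] at this
              exact hqp.one_lt.ne' (Nat.dvd_one.1 this)
            rw [hABf, hqA, zero_add] at h8
            exact h8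
          · rw [Nat.factorization_eq_zero_of_not_prime _ hqp]
        · rw [Nat.factorization_eq_zero_of_not_dvd hqB]

theorem F_zero_le (b s : ℕ) : F 0 s ≤ F b s := by
  rcases Nat.eq_zero_or_pos b with rfl | hb
  · exact le_rfl
  · have hb0 : b ≠ 0 := by omega
    simp only [F, hb0, if_false, if_true]
    calc 2 ^ (s / 2) ≤ 2 ^ ((s + 1) / 2) := Nat.pow_le_pow_right (by norm_num) (by omega)
      _ = 1 * 2 ^ ((s + 1) / 2) := (one_mul _).symm
      _ ≤ _ := Nat.mul_le_mul_right _ (by omega)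

theorem M_sub (y A p v : ℕ) : M y (A * p ^ v) ⊆ M y A := by
  intro q hq
  simp only [M, mem_filter] at hq ⊢
  exact ⟨hq.1, hq.2.1, fun h => hq.2.2 (h.mul_right _)⟩

theorem M_card_lt {y A p v : ℕ} (hN : New A p) (hp3 : 3 ≤ p) (hpy : p ≤ y) (hv : 1 ≤ v) :
    (M y (A * p ^ v)).card + 1 ≤ (M y A).card := by
  have h1 : p ∈ M y A := by
    simp only [M, mem_filter, mem_Icc]
    exact ⟨⟨hp3, hpy⟩, hN.1, hN.2.2.2⟩
  have h2 : M y (A * p ^ v) ⊆ (M y A).erase p := by
    intro q hq
    rw [mem_erase]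
    refine ⟨?_, M_sub y A p v hq⟩
    rintro rfl
    simp only [M, mem_filter] at hq
    exact hq.2.2 ((dvd_pow_self q (by omega)).mul_left _)
  have h3 := card_le_card h2
  rw [card_erase_of_mem h1] at h3
  have h4 : 0 < (M y A).card := card_pos.2 ⟨p, h1⟩
  omega

theorem count (X y : ℕ) (hE : 1 ≤ Nat.log 3 X) : ∀ (k A s b : ℕ), 1 < A → X + 1 - A ≤ k →
    (T X y A s b).encard ≤ ((Nat.log 3 X ^ (M y A).card * F b s : ℕ) : ℕ∞) := by
  classical
  intro k
  induction k with
  | zero =>
    intro A s b hA hk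
    have : T X y A s b = ∅ := by
      rw [Set.eq_empty_iff_forall_notMem]
      rintro B ⟨_, h2, h3, _⟩
      have hAB0 : A * B ≠ 0 := h2.2.ne'
      have hB0 : B ≠ 0 := right_ne_zero_of_mul hAB0
      have : A * 1 ≤ A * B := Nat.mul_le_mul_left _ (Nat.pos_of_ne_zero hB0)
      omega
    rw [this, Set.encard_empty]
    exact bot_le
  | succ k ih =>
    intro A s b hA hk
    have hE1 : ∀ m, 1 ≤ Nat.log 3 X ^ m := fun m => Nat.one_le_pow _ _ hE
    by_cases hT : ∃ B₀ ∈ T X y A s b, 1 < B₀
    swap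
    · -- only `B = 1`
      have h1 : T X y A s b ⊆ {1} := by
        intro B hB
        rw [Set.mem_singleton_iff]
        have hAB0 : A * B ≠ 0 := hB.2.1.2.ne'
        have hB0 : B ≠ 0 := right_ne_zero_of_mul hAB0
        by_contra h
        exact hT ⟨B, hB, by omega⟩
      refine (Set.encard_le_encard h1).trans ?_
      rw [Set.encard_singleton]
      have := Nat.mul_le_mul (hE1 (M y A).card) (F_pos b s)
      exact_mod_cast this
    · obtain ⟨B₀, hB₀, hB₀1⟩ := hT
      obtain ⟨p, hN⟩ := exists_new hA hB₀1 hB₀.1 hB₀.2.1 hB₀.2.2.2.1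
      have hp3 : 3 ≤ p := by
        have h1 := hN.1.two_le
        have h2 := hN.2.1
        omega
      have hAp : ∀ v, 1 ≤ v → 1 < A * p ^ v ∧ X + 1 - A * p ^ v ≤ k := by
        intro v hv
        have h1 : 3 ≤ p ^ v := hp3.trans (Nat.le_self_pow (by omega) p)
        have h2 : A * 3 ≤ A * p ^ v := Nat.mul_le_mul_left _ h1
        omega
      by_cases hpy : y < p
      · -- large prime
        have hcover : T X y A s b ⊆ ⋃ i ∈ range s, {B | (b = 0 → (i + 1) % 2 = 0) ∧
            ∃ B', B = p ^ (i + 1) * B' ∧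
            B' ∈ T X y (A * p ^ (i + 1)) (s - (i + 1)) (if (i + 1) % 2 = 0 then b else 0)} := by
          intro B hB
          obtain ⟨v, B', hv, hBe, _, _, _, hLam, hb0, hT'⟩ := split hA hN hB
          rw [if_pos hpy] at hLam hT'
          have hvs : v ≤ s := by
            have := hB.2.2.2.2.1
            omega
          rw [Set.mem_iUnion₂]
          refine ⟨v - 1, by rw [mem_range]; omega, ?_⟩
          have hv1 : v - 1 + 1 = v := by omega
          rw [Set.mem_ofPred_eq, hv1]
          exact ⟨hb0, B', hBe, hT'⟩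
        have hpiece : ∀ i ∈ range s, ({B | (b = 0 → (i + 1) % 2 = 0) ∧
            ∃ B', B = p ^ (i + 1) * B' ∧
            B' ∈ T X y (A * p ^ (i + 1)) (s - (i + 1)) (if (i + 1) % 2 = 0 then b else 0)}).encard ≤
            ((Nat.log 3 X ^ (M y A).card * phi b (i + 1) (s - (i + 1)) : ℕ) : ℕ∞) := by
          intro i _
          by_cases hbad : b = 0 ∧ (i + 1) % 2 ≠ 0
          · have : {B | (b = 0 → (i + 1) % 2 = 0) ∧ ∃ B', B = p ^ (i + 1) * B' ∧
              B' ∈ T X y (A * p ^ (i + 1)) (s - (i + 1)) (if (i + 1) % 2 = 0 then b else 0)} = ∅ := by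
              rw [Set.eq_empty_iff_forall_notMem]
              rintro B ⟨h, _⟩
              exact hbad.2 (h hbad.1)
            rw [this, Set.encard_empty]
            exact bot_le
          · have hsub : {B | (b = 0 → (i + 1) % 2 = 0) ∧ ∃ B', B = p ^ (i + 1) * B' ∧
              B' ∈ T X y (A * p ^ (i + 1)) (s - (i + 1)) (if (i + 1) % 2 = 0 then b else 0)} ⊆
              (fun B' => p ^ (i + 1) * B') ''
              (T X y (A * p ^ (i + 1)) (s - (i + 1)) (if (i + 1) % 2 = 0 then b else 0)) := by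
              rintro B ⟨_, B', h1, h2⟩
              exact ⟨B', h2, h1.symm⟩
            refine (Set.encard_le_encard hsub).trans ((Set.encard_image_le _ _).trans ?_)
            obtain ⟨h1, h2⟩ := hAp (i + 1) (by omega)
            refine (ih (A * p ^ (i + 1)) (s - (i + 1)) _ h1 h2).trans ?_
            have h3 : F (if (i + 1) % 2 = 0 then b else 0) (s - (i + 1)) = phi b (i + 1) (s - (i + 1)) := by
              unfold phi
              by_cases h4 : (i + 1) % 2 = 0
              · rw [if_pos h4, if_pos h4]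
              · rw [if_neg h4, if_neg h4, if_neg (fun h5 => hbad ⟨h5, h4⟩)]
            rw [h3]
            have h4 := card_le_card (M_sub y A p (i + 1))
            have h5 := Nat.mul_le_mul_right (phi b (i + 1) (s - (i + 1)))
              (Nat.pow_le_pow_right hE h4)
            exact_mod_cast h5
        calc (T X y A s b).encard ≤ _ := Set.encard_le_encard hcover
          _ ≤ _ := Finset.set_encard_biUnion_le _ _
          _ ≤ ∑ i ∈ range s, ((Nat.log 3 X ^ (M y A).card * phi b (i + 1) (s - (i + 1)) : ℕ) : ℕ∞) :=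
              sum_le_sum hpiece
          _ = ((Nat.log 3 X ^ (M y A).card * Ssum b s : ℕ) : ℕ∞) := by
              unfold Ssum
              rw [mul_sum]
              push_cast
              rfl
          _ ≤ _ := by exact_mod_cast Nat.mul_le_mul_left _ (Ssum_le b s)
      · -- small prime
        have hcover : T X y A s b ⊆ ⋃ i ∈ range (Nat.log 3 X), ((fun B' => p ^ (i + 1) * B') ''
            (T X y (A * p ^ (i + 1)) s (if (i + 1) % 2 = 0 then b else 0))) := by
          intro B hB
          obtain ⟨v, B', hv, hBe, _, _, hpow, _, _, hT'⟩ := split hA hN hB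
          rw [if_neg hpy, Nat.sub_zero] at hT'
          have hvs : v ≤ Nat.log 3 X := by
            have h3 : 3 ^ v ≤ X := (Nat.pow_le_pow_left hp3 v).trans hpow
            have hX0 : X ≠ 0 := by
              rintro rfl
              have : 0 < 3 ^ v := by positivity
              omega
            exact Nat.le_log_of_pow_le (by norm_num) h3
          rw [Set.mem_iUnion₂]
          refine ⟨v - 1, by rw [mem_range]; omega, ?_⟩
          have hv1 : v - 1 + 1 = v := by omega
          rw [hv1]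
          exact ⟨B', hT', hBe.symm⟩
        have hpiece : ∀ i ∈ range (Nat.log 3 X), ((fun B' => p ^ (i + 1) * B') ''
            (T X y (A * p ^ (i + 1)) s (if (i + 1) % 2 = 0 then b else 0))).encard ≤
            ((Nat.log 3 X ^ ((M y A).card - 1) * F b s : ℕ) : ℕ∞) := by
          intro i _
          refine (Set.encard_image_le _ _).trans ?_
          obtain ⟨h1, h2⟩ := hAp (i + 1) (by omega)
          refine (ih (A * p ^ (i + 1)) s _ h1 h2).trans ?_
          have h3 : F (if (i + 1) % 2 = 0 then b else 0) s ≤ F b s := by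
            by_cases h4 : (i + 1) % 2 = 0
            · rw [if_pos h4]
            · rw [if_neg h4]
              exact F_zero_le b s
          have h4 := M_card_lt (v := i + 1) hN hp3 (not_lt.1 hpy) (by omega)
          have h5 := Nat.mul_le_mul (Nat.pow_le_pow_right hE
            (show (M y (A * p ^ (i + 1))).card ≤ (M y A).card - 1 by omega)) h3
          exact_mod_cast h5
        calc (T X y A s b).encard ≤ _ := Set.encard_le_encard hcover
          _ ≤ _ := Finset.set_encard_biUnion_le _ _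
          _ ≤ ∑ _i ∈ range (Nat.log 3 X), ((Nat.log 3 X ^ ((M y A).card - 1) * F b s : ℕ) : ℕ∞) :=
              sum_le_sum hpiece
          _ = ((Nat.log 3 X * (Nat.log 3 X ^ ((M y A).card - 1) * F b s) : ℕ) : ℕ∞) := by
              rw [sum_const, card_range, nsmul_eq_mul]
              push_cast
              rfl
          _ = ((Nat.log 3 X ^ (M y A).card * F b s : ℕ) : ℕ∞) := by
              congr 1
              have h4 := M_card_lt (v := 1) hN hp3 (not_lt.1 hpy) (by omega)
              have h5 : (M y A).card = ((M y A).card - 1) + 1 := by omega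
              conv_rhs => rw [h5]
              rw [pow_succ]
              ring

/-! ### The least prime factor -/

theorem bern (S : Finset ℕ) (x : ℕ → ℝ) (h0 : ∀ p ∈ S, 0 ≤ x p) (h1 : ∀ p ∈ S, x p ≤ 1) :
    1 - ∑ p ∈ S, x p ≤ ∏ p ∈ S, (1 - x p) := by
  classical
  induction S using Finset.induction_on with
  | empty => simp
  | insert a S ha ih =>
    rw [Finset.sum_insert ha, Finset.prod_insert ha]
    have h2 := ih (fun p hp => h0 p (Finset.mem_insert_of_mem hp))
      (fun p hp => h1 p (Finset.mem_insert_of_mem hp))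
    have h3 := h0 a (Finset.mem_insert_self _ _)
    have h4 := h1 a (Finset.mem_insert_self _ _)
    have h5 : ∏ p ∈ S, (1 - x p) ≤ 1 :=
      Finset.prod_le_one (fun p hp => by linarith [h1 p (Finset.mem_insert_of_mem hp)])
        (fun p hp => by linarith [h0 p (Finset.mem_insert_of_mem hp)])
    nlinarith

theorem sg_lt (k N : ℕ) (hN : N ≠ 0) (hk : 1 ≤ k) (hc : N.primeFactors.card ≤ k)
    (hp : ∀ p ∈ N.primeFactors, 2 * k < p) : sg N < 2 * N := by
  have h1 : sg N = ∏ p ∈ N.primeFactors, ∑ i ∈ range (N.factorization p + 1), p ^ i :=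
    Nat.sum_divisors hN
  have h2 : ∏ p ∈ N.primeFactors, p ^ (N.factorization p) = N :=
    Nat.prod_factorization_pow_eq_self hN
  have hpp : ∀ p ∈ N.primeFactors, (2 * (k : ℝ) + 1) ≤ p := fun p h => by
    have := hp p h
    exact_mod_cast this
  have hk' : (1 : ℝ) ≤ k := by exact_mod_cast hk
  have h3 : ∀ p ∈ N.primeFactors, ((∑ i ∈ range (N.factorization p + 1), p ^ i : ℕ) : ℝ) *
      (1 - 1 / (p : ℝ)) ≤ (p : ℝ) ^ (N.factorization p) := by
    intro p h
    have hp1 := hpp p h
    have hp0 : (0 : ℝ) < p := by linarith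
    have hg := geom_sum_mul (p : ℝ) (N.factorization p + 1)
    push_cast
    have h4 : (1 : ℝ) - 1 / p = (p - 1) / p := by field_simp
    rw [h4, ← mul_div_assoc, hg, div_le_iff₀ hp0, ← pow_succ]
    linarith
  have h4 : (∏ p ∈ N.primeFactors, ((∑ i ∈ range (N.factorization p + 1), p ^ i : ℕ) : ℝ)) *
      ∏ p ∈ N.primeFactors, (1 - 1 / (p : ℝ)) ≤ N := by
    rw [← Finset.prod_mul_distrib]
    calc _ ≤ ∏ p ∈ N.primeFactors, (p : ℝ) ^ (N.factorization p) := by
          apply Finset.prod_le_prod _ h3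
          intro p h
          have hp1 := hpp p h
          have : 1 / (p : ℝ) ≤ 1 := by rw [div_le_one (by linarith)]; linarith
          exact mul_nonneg (Nat.cast_nonneg _) (by linarith)
      _ = N := by exact_mod_cast h2
  have h5 := bern N.primeFactors (fun p => 1 / (p : ℝ)) (fun p _ => by positivity) (fun p h => by
    have := hpp p h
    rw [div_le_one (by linarith)]; linarith)
  have h6 : ∑ p ∈ N.primeFactors, 1 / (p : ℝ) ≤ k * (1 / (2 * (k : ℝ) + 1)) := by
    calc ∑ p ∈ N.primeFactors, 1 / (p : ℝ) ≤ ∑ p ∈ N.primeFactors, 1 / (2 * (k : ℝ) + 1) :=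
          Finset.sum_le_sum (fun p h => one_div_le_one_div_of_le (by positivity) (hpp p h))
      _ = N.primeFactors.card * (1 / (2 * (k : ℝ) + 1)) := by rw [Finset.sum_const, nsmul_eq_mul]
      _ ≤ _ := by
          apply mul_le_mul_of_nonneg_right _ (by positivity)
          exact_mod_cast hc
  have h7 : k * (1 / (2 * (k : ℝ) + 1)) < 1 / 2 := by
    rw [mul_one_div, div_lt_div_iff₀ (by positivity) (by norm_num)]
    linarith
  have h8 : (1 / 2 : ℝ) < ∏ p ∈ N.primeFactors, (1 - 1 / (p : ℝ)) := by linarith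
  have hs0 : (0 : ℝ) < ∏ p ∈ N.primeFactors, ((∑ i ∈ range (N.factorization p + 1), p ^ i : ℕ) : ℝ) := by
    apply Finset.prod_pos
    intro p _
    have : 0 < ∑ i ∈ range (N.factorization p + 1), p ^ i := by
      rw [sum_range_succ']
      simp
    exact_mod_cast this
  have h9 : (∏ p ∈ N.primeFactors, ((∑ i ∈ range (N.factorization p + 1), p ^ i : ℕ) : ℝ)) < 2 * N := by
    nlinarith
  rw [h1]
  exact_mod_cast h9

/-- **Explicit inequality.** -/
theorem explicit (X y : ℕ) (hX : 3 ≤ X) (hy : 2 ≤ y) :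
    ({N : ℕ | Odd N ∧ N.Perfect ∧ N ≤ X}.ncard) ≤
      2 * Nat.log 3 X ^ (((Icc 3 y).filter Nat.Prime).card + 2) *
        (((Nat.log y X + 1) / 2 + 1) * 2 ^ ((Nat.log y X + 1) / 2)) := by
  classical
  set E := Nat.log 3 X with hEdef
  set s := Nat.log y X with hs
  have hX0 : X ≠ 0 := by omega
  have hE : 1 ≤ E := by
    rw [hEdef]
    exact Nat.le_log_of_pow_le (by norm_num) (by simpa using hX)
  have hcover : {N : ℕ | Odd N ∧ N.Perfect ∧ N ≤ X} ⊆ ⋃ x ∈ ((Icc 1 (2 * E)) ×ˢ (Icc 1 E)).filter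
      (fun x => 1 < x.1 ^ x.2), ((fun B => x.1 ^ x.2 * B) '' (T X y (x.1 ^ x.2) s 1)) := by
    rintro N ⟨hodd, hperf, hNX⟩
    have hN0 : N ≠ 0 := hperf.2.ne'
    have hN1 : N ≠ 1 := by
      rintro rfl
      have := hperf.1
      simp at this
    have hq := Nat.minFac_prime hN1
    have hqd := Nat.minFac_dvd N
    set q := N.minFac with hqdef
    have hmin : ∀ p ∈ N.primeFactors, q ≤ p := by
      intro p hp
      exact Nat.minFac_le_of_dvd (Nat.prime_of_mem_primeFactors hp).two_le
        (Nat.dvd_of_mem_primeFactors hp)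
    have hq3 : 3 ≤ q := by
      have h1 := hq.two_le
      have h2 : q ≠ 2 := by
        intro h
        rw [h] at hqd
        exact (Nat.not_even_iff_odd.2 hodd) (even_iff_two_dvd.2 hqd)
      omega
    have hcard : N.primeFactors.card ≤ E := by
      have h1 : 3 ^ N.primeFactors.card ≤ N := by
        calc 3 ^ N.primeFactors.card = ∏ _p ∈ N.primeFactors, 3 := by rw [prod_const]
          _ ≤ ∏ p ∈ N.primeFactors, p := prod_le_prod' (fun p hp => hq3.trans (hmin p hp))
          _ ≤ N := Nat.le_of_dvd (Nat.pos_of_ne_zero hN0) (Nat.prod_primeFactors_dvd N)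
      exact Nat.le_log_of_pow_le (by norm_num) (h1.trans hNX)
    have hqE : q ≤ 2 * E := by
      by_contra h
      push Not at h
      have h1 := sg_lt E N hN0 hE hcard (fun p hp => h.trans_le (hmin p hp))
      have h2 : sg N = 2 * N := (Nat.perfect_iff_sum_divisors_eq_two_mul hperf.2).1 hperf
      omega
    obtain ⟨v, B, hqB, hNe⟩ := Nat.exists_eq_pow_mul_and_not_dvd hN0 q hq.ne_one
    have hB0 : B ≠ 0 := by
      rintro rfl
      simp at hqB
    have hv : 1 ≤ v := by
      by_contra h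
      have : v = 0 := by omega
      rw [this, pow_zero, one_mul] at hNe
      rw [← hNe] at hqB
      exact hqB hqd
    have hqv : q ^ v ≤ X := by
      refine le_trans ?_ hNX
      conv_rhs => rw [hNe]
      exact Nat.le_mul_of_pos_right _ (Nat.pos_of_ne_zero hB0)
    have hvE : v ≤ E := Nat.le_log_of_pow_le (by norm_num) ((Nat.pow_le_pow_left hq3 v).trans hqv)
    rw [Set.mem_iUnion₂]
    refine ⟨(q, v), ?_, B, ?_, hNe.symm⟩
    · rw [mem_filter, mem_product, mem_Icc, mem_Icc]
      exact ⟨⟨⟨hq.pos, hqE⟩, hv, hvE⟩, Nat.one_lt_pow (by omega) hq.one_lt⟩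
    · refine ⟨?_, ?_, ?_, ?_, ?_, fun h => absurd h one_ne_zero⟩
      · rw [← hNe]; exact hodd
      · rw [← hNe]; exact hperf
      · rw [← hNe]; exact hNX
      · exact Nat.Coprime.pow_left _ ((Nat.Prime.coprime_iff_not_dvd hq).2 hqB)
      · apply Nat.le_log_of_pow_le (by omega)
        refine (Lam_pow_le hB0).trans (le_trans ?_ hNX)
        conv_rhs => rw [hNe]
        exact Nat.le_mul_of_pos_left _ (pow_pos hq.pos _)
  have hpiece : ∀ x ∈ ((Icc 1 (2 * E)) ×ˢ (Icc 1 E)).filter (fun x => 1 < x.1 ^ x.2),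
      ((fun B => x.1 ^ x.2 * B) '' (T X y (x.1 ^ x.2) s 1)).encard ≤
      ((E ^ ((Icc 3 y).filter Nat.Prime).card * F 1 s : ℕ) : ℕ∞) := by
    intro x hx
    rw [mem_filter] at hx
    refine (Set.encard_image_le _ _).trans ((count X y hE _ _ s 1 hx.2 le_rfl).trans ?_)
    have h1 : (M y (x.1 ^ x.2)).card ≤ ((Icc 3 y).filter Nat.Prime).card := by
      apply card_le_card
      intro p hp
      simp only [M, mem_filter] at hp
      rw [mem_filter]
      exact ⟨hp.1, hp.2.1⟩
    exact_mod_cast Nat.mul_le_mul_right _ (Nat.pow_le_pow_right hE h1)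
  have hfinal : {N : ℕ | Odd N ∧ N.Perfect ∧ N ≤ X}.encard ≤
      ((2 * E ^ (((Icc 3 y).filter Nat.Prime).card + 2) * F 1 s : ℕ) : ℕ∞) := by
    calc {N : ℕ | Odd N ∧ N.Perfect ∧ N ≤ X}.encard ≤ _ := Set.encard_le_encard hcover
      _ ≤ _ := Finset.set_encard_biUnion_le _ _
      _ ≤ ∑ _x ∈ ((Icc 1 (2 * E)) ×ˢ (Icc 1 E)).filter (fun x => 1 < x.1 ^ x.2),
          ((E ^ ((Icc 3 y).filter Nat.Prime).card * F 1 s : ℕ) : ℕ∞) := sum_le_sum hpiece
      _ = (((((Icc 1 (2 * E)) ×ˢ (Icc 1 E)).filter (fun x => 1 < x.1 ^ x.2)).card *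
          (E ^ ((Icc 3 y).filter Nat.Prime).card * F 1 s) : ℕ) : ℕ∞) := by
          rw [sum_const, nsmul_eq_mul]
          push_cast
          rfl
      _ ≤ ((2 * E * E * (E ^ ((Icc 3 y).filter Nat.Prime).card * F 1 s) : ℕ) : ℕ∞) := by
          have h1 : (((Icc 1 (2 * E)) ×ˢ (Icc 1 E)).filter (fun x => 1 < x.1 ^ x.2)).card ≤ 2 * E * E := by
            refine (card_filter_le _ _).trans ?_
            rw [card_product, Nat.card_Icc, Nat.card_Icc]
            simp
          exact_mod_cast Nat.mul_le_mul_right _ h1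
      _ = _ := by
          congr 1
          ring
  have hfin : {N : ℕ | Odd N ∧ N.Perfect ∧ N ≤ X}.Finite := by
    rw [← Set.encard_lt_top_iff]
    exact lt_of_le_of_lt hfinal (ENat.natCast_lt_top _)
  rw [← hfin.cast_ncard_eq] at hfinal
  have h1 : F 1 s = ((s + 1) / 2 + 1) * 2 ^ ((s + 1) / 2) := by simp [F]
  rw [h1] at hfinal
  exact_mod_cast hfinal

/-! ### Asymptotics -/

theorem eventually_bounds (ε : ℝ) (hε : 0 < ε) : ∃ L₀ : ℝ, ∀ l : ℝ, L₀ ≤ l →
    3 ≤ l ∧ 1 + ε ≤ Real.log l ∧ 14 * Real.log l ^ 2 ≤ ε * l ^ (ε / (1 + ε)) := by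
  have hδ : 0 < ε / (1 + ε) := by positivity
  have h1 : ∀ᶠ l : ℝ in Filter.atTop, ‖Real.log l‖ ≤ Real.sqrt (ε / 14) * ‖l ^ (ε / (1 + ε) / 2)‖ := by
    apply (isLittleO_log_rpow_atTop (half_pos hδ)).bound
    exact Real.sqrt_pos.2 (by positivity)
  have h2 : ∀ᶠ l : ℝ in Filter.atTop, 1 + ε ≤ Real.log l :=
    Real.tendsto_log_atTop.eventually_ge_atTop _
  have h3 : ∀ᶠ l : ℝ in Filter.atTop, (3 : ℝ) ≤ l := Filter.eventually_ge_atTop _
  obtain ⟨L₀, hL₀⟩ := Filter.eventually_atTop.1 (h1.and (h2.and h3))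
  refine ⟨L₀, fun l hl => ?_⟩
  obtain ⟨h4, h5, h6⟩ := hL₀ l hl
  refine ⟨h6, h5, ?_⟩
  have hl0 : (0 : ℝ) ≤ l := by linarith
  have h7 : 0 ≤ l ^ (ε / (1 + ε) / 2) := Real.rpow_nonneg hl0 _
  rw [Real.norm_eq_abs, Real.norm_eq_abs, abs_of_nonneg h7, abs_of_nonneg (by linarith)] at h4
  have h8 : Real.log l ^ 2 ≤ (Real.sqrt (ε / 14) * l ^ (ε / (1 + ε) / 2)) ^ 2 :=
    pow_le_pow_left₀ (by linarith) h4 2
  rw [mul_pow, Real.sq_sqrt (by positivity)] at h8
  have h9 : (l ^ (ε / (1 + ε) / 2)) ^ 2 = l ^ (ε / (1 + ε)) := by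
    rw [← Real.rpow_natCast, ← Real.rpow_mul hl0]
    congr 1
    push_cast
    ring
  rw [h9] at h8
  linarith

theorem asymptotic (ε : ℝ) (hε : 0 < ε) : ∃ X₀ : ℕ, ∀ X : ℕ, X₀ ≤ X →
    ({N : ℕ | Odd N ∧ N.Perfect ∧ N ≤ X}.ncard : ℝ) ≤
      (X : ℝ) ^ ((Real.log 2 / 2 + ε) / Real.log (Real.log X)) := by
  obtain ⟨L₀, hL₀⟩ := eventually_bounds ε hε
  refine ⟨⌈Real.exp L₀⌉₊ + 3, fun X hX => ?_⟩
  have hX3 : 3 ≤ X := by omega
  have hXr : (0 : ℝ) < X := by exact_mod_cast (show 0 < X by omega)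
  have hXe : Real.exp L₀ ≤ X := by
    have h1 : ((⌈Real.exp L₀⌉₊ : ℕ) : ℝ) ≤ X := by exact_mod_cast (show ⌈Real.exp L₀⌉₊ ≤ X by omega)
    exact (Nat.le_ceil _).trans h1
  set l := Real.log X with hl
  have hlL : L₀ ≤ l := by
    rw [hl, Real.le_log_iff_exp_le hXr]
    exact hXe
  obtain ⟨hl3, hlam, hmain⟩ := hL₀ l hlL
  set lam := Real.log l with hlamdef
  set δ := ε / (1 + ε) with hδ
  have hl0 : (0 : ℝ) < l := by linarith
  have hlam0 : 0 < lam := by linarith
  have hδ1 : 1 - δ = 1 / (1 + ε) := by rw [hδ]; field_simp; ring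
  have hδ0 : 0 < 1 - δ := by rw [hδ1]; positivity
  set R := l ^ (1 - δ) with hR
  have hR1 : 1 < R := Real.one_lt_rpow (by linarith) hδ0
  set y := ⌈R⌉₊ with hy
  have hyR : R ≤ y := Nat.le_ceil _
  have hyR2 : (y : ℝ) < R + 1 := Nat.ceil_lt_add_one (by linarith)
  have hy2 : 2 ≤ y := by
    have : (1 : ℝ) < y := by linarith
    have : 1 < y := by exact_mod_cast this
    omega
  have hex := explicit X y hX3 hy2
  set m := ((Finset.Icc 3 y).filter Nat.Prime).card with hm
  set E := Nat.log 3 X with hE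
  set s := Nat.log y X with hs
  have hmy : m ≤ y := by
    rw [hm]
    refine (card_filter_le _ _).trans ?_
    rw [Nat.card_Icc]
    omega
  have hlogy : (1 - δ) * lam ≤ Real.log y := by
    rw [hlamdef, ← Real.log_rpow hl0]
    exact Real.log_le_log (by linarith) hyR
  have hs1 : (s : ℝ) * Real.log y ≤ l := by
    have h1 : y ^ s ≤ X := Nat.pow_log_le_self y (by omega)
    have h2 : Real.log ((y : ℝ) ^ s) ≤ Real.log X := by
      apply Real.log_le_log (by positivity)
      exact_mod_cast h1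
    rwa [Real.log_pow] at h2
  have hs2 : (s : ℝ) * lam ≤ (1 + ε) * l := by
    have h1 : (s : ℝ) * ((1 - δ) * lam) ≤ l :=
      (mul_le_mul_of_nonneg_left hlogy (Nat.cast_nonneg _)).trans hs1
    rw [hδ1] at h1
    have h2 : (s : ℝ) * (1 / (1 + ε) * lam) = s * lam / (1 + ε) := by ring
    rw [h2, div_le_iff₀ (by linarith)] at h1
    linarith
  have hsl : (s : ℝ) ≤ l := by
    have h1 : (s : ℝ) * (1 + ε) ≤ (1 + ε) * l :=
      (mul_le_mul_of_nonneg_left hlam (Nat.cast_nonneg _)).trans hs2
    have h2 : (0 : ℝ) < 1 + ε := by linarith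
    nlinarith
  have hEl : (E : ℝ) ≤ l := by
    have h1 : 3 ^ E ≤ X := Nat.pow_log_le_self 3 (by omega)
    have h2 : Real.log ((3 : ℝ) ^ E) ≤ Real.log X := by
      apply Real.log_le_log (by positivity)
      exact_mod_cast h1
    rw [Real.log_pow] at h2
    have h3 : 1 ≤ Real.log 3 := by
      rw [Real.le_log_iff_exp_le (by norm_num)]
      have := Real.exp_one_lt_d9
      linarith
    have h4 : (E : ℝ) * 1 ≤ E * Real.log 3 := mul_le_mul_of_nonneg_left h3 (Nat.cast_nonneg _)
    linarith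
  -- the bound for the number
  have hb1 : ({N : ℕ | Odd N ∧ N.Perfect ∧ N ≤ X}.ncard : ℝ) ≤
      2 * l ^ ((y : ℝ) + 2) * (l * Real.exp (((s : ℝ) + 1) / 2 * Real.log 2)) := by
    have h1 : ({N : ℕ | Odd N ∧ N.Perfect ∧ N ≤ X}.ncard : ℝ) ≤
        2 * (E : ℝ) ^ (m + 2) * ((((s + 1) / 2 + 1 : ℕ) : ℝ) * (2 : ℝ) ^ ((s + 1) / 2)) := by
      exact_mod_cast hex
    refine h1.trans ?_
    have h2 : (E : ℝ) ^ (m + 2) ≤ l ^ ((y : ℝ) + 2) := by
      calc (E : ℝ) ^ (m + 2) ≤ l ^ (m + 2) := pow_le_pow_left₀ (Nat.cast_nonneg _) hEl _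
        _ ≤ l ^ (y + 2) := pow_le_pow_right₀ (by linarith) (by omega)
        _ = l ^ ((y : ℝ) + 2) := by
            rw [← Real.rpow_natCast]
            push_cast
            rfl
    have h3 : (((s + 1) / 2 + 1 : ℕ) : ℝ) ≤ l := by
      have h4 : (((s + 1) / 2 : ℕ) : ℝ) ≤ ((s + 1 : ℕ) : ℝ) / 2 := Nat.cast_div_le
      push_cast at h4 ⊢
      linarith
    have h5 : (2 : ℝ) ^ ((s + 1) / 2) ≤ Real.exp (((s : ℝ) + 1) / 2 * Real.log 2) := by
      have h4 : (((s + 1) / 2 : ℕ) : ℝ) ≤ ((s + 1 : ℕ) : ℝ) / 2 := Nat.cast_div_le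
      push_cast at h4
      rw [← Real.rpow_natCast, Real.rpow_def_of_pos (by norm_num), mul_comm]
      apply Real.exp_le_exp.2
      exact mul_le_mul_of_nonneg_right h4 (Real.log_nonneg (by norm_num))
    apply mul_le_mul (mul_le_mul_of_nonneg_left h2 (by norm_num)) (mul_le_mul h3 h5 (by positivity) hl0.le)
      (by positivity) (by positivity)
  refine hb1.trans ?_
  have hlog2 : Real.log 2 < 0.7 := by
    have := Real.log_two_lt_d9
    linarith
  have hlog20 : 0 < Real.log 2 := Real.log_pos (by norm_num)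
  have he1 : (2 : ℝ) * l ^ ((y : ℝ) + 2) * (l * Real.exp (((s : ℝ) + 1) / 2 * Real.log 2)) =
      Real.exp (Real.log 2 + lam * ((y : ℝ) + 2) + lam + ((s : ℝ) + 1) / 2 * Real.log 2) := by
    rw [Real.exp_add, Real.exp_add, Real.exp_add, Real.exp_log (by norm_num), hlamdef, Real.exp_log hl0,
      ← Real.rpow_def_of_pos hl0]
    ring
  rw [he1, Real.rpow_def_of_pos hXr, ← hl]
  apply Real.exp_le_exp.2
  -- the inequality for the exponents
  have hRl : R * lam ^ 2 * 14 ≤ ε * l := by
    have h1 : R * (14 * lam ^ 2) ≤ R * (ε * l ^ δ) := mul_le_mul_of_nonneg_left hmain (by linarith)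
    have h2 : R * l ^ δ = l := by
      rw [hR, ← Real.rpow_add hl0]
      have : 1 - δ + δ = 1 := by ring
      rw [this, Real.rpow_one]
    calc R * lam ^ 2 * 14 = R * (14 * lam ^ 2) := by ring
      _ ≤ R * (ε * l ^ δ) := h1
      _ = ε * (R * l ^ δ) := by ring
      _ = ε * l := by rw [h2]
  have hgoal : (Real.log 2 + lam * ((y : ℝ) + 2) + lam + ((s : ℝ) + 1) / 2 * Real.log 2) * lam ≤
      (Real.log 2 / 2 + ε) * l := by
    have hlam1 : 1 ≤ lam := by linarith
    have ha : lam ≤ lam ^ 2 := by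
      rw [sq]
      exact le_mul_of_one_le_left hlam0.le hlam1
    have hsq : (0 : ℝ) ≤ lam ^ 2 := sq_nonneg lam
    have hb : lam ^ 2 ≤ R * lam ^ 2 := le_mul_of_one_le_left hsq hR1.le
    have h1 : Real.log 2 * lam ≤ R * lam ^ 2 := by
      have : Real.log 2 * lam ≤ 1 * lam := mul_le_mul_of_nonneg_right (by linarith) hlam0.le
      linarith
    have h2 : lam * ((y : ℝ) + 2) * lam ≤ 4 * (R * lam ^ 2) := by
      have h3 : (y : ℝ) + 2 ≤ 4 * R := by linarith
      have h4 : lam * ((y : ℝ) + 2) * lam = ((y : ℝ) + 2) * lam ^ 2 := by ring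
      rw [h4]
      have h5 := mul_le_mul_of_nonneg_right h3 hsq
      linarith
    have h5 : lam * lam ≤ R * lam ^ 2 := by
      rw [← sq]
      exact hb
    have h6 : ((s : ℝ) + 1) / 2 * Real.log 2 * lam ≤
        Real.log 2 / 2 * ((1 + ε) * l) + R * lam ^ 2 := by
      have h7 : ((s : ℝ) + 1) / 2 * Real.log 2 * lam =
          Real.log 2 / 2 * (s * lam) + Real.log 2 * lam / 2 := by ring
      rw [h7]
      have h8 : Real.log 2 / 2 * (s * lam) ≤ Real.log 2 / 2 * ((1 + ε) * l) :=
        mul_le_mul_of_nonneg_left hs2 (by linarith)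
      have h9 : 0 ≤ Real.log 2 * lam := by positivity
      linarith
    have h9 : (Real.log 2 + lam * ((y : ℝ) + 2) + lam + ((s : ℝ) + 1) / 2 * Real.log 2) * lam =
        Real.log 2 * lam + lam * ((y : ℝ) + 2) * lam + lam * lam +
          ((s : ℝ) + 1) / 2 * Real.log 2 * lam := by ring
    rw [h9]
    have h10 : Real.log 2 / 2 * ((1 + ε) * l) ≤ Real.log 2 / 2 * l + 0.35 * (ε * l) := by
      have h11 : 0 < ε * l := by positivity
      have h12 : Real.log 2 / 2 * (ε * l) ≤ 0.35 * (ε * l) :=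
        mul_le_mul_of_nonneg_right (by linarith) h11.le
      have h13 : Real.log 2 / 2 * ((1 + ε) * l) = Real.log 2 / 2 * l + Real.log 2 / 2 * (ε * l) := by ring
      rw [h13]
      linarith
    have h14 : (Real.log 2 / 2 + ε) * l = Real.log 2 / 2 * l + ε * l := by ring
    rw [h14]
    linarith
  rw [← mul_div_assoc, le_div_iff₀ hlam0]
  linarith

/-- **Main theorem.**

(1) Let `X ≥ 3` and `y ≥ 2` be natural numbers, let `E` be the largest integer with `3 ^ E ≤ X`, `s` the
largest integer with `y ^ s ≤ X` and `m` the number of odd primes `≤ y`. Then the number of odd perfect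
numbers up to `X` is at most `2 E ^ (m + 2) (⌊(s + 1) / 2⌋ + 1) 2 ^ ⌊(s + 1) / 2⌋`.

(2) For every `ε > 0` and all sufficiently large `X` the number of odd perfect numbers up to `X` is at most
`X ^ (((log 2) / 2 + ε) / log log X)`. -/
theorem result :
    (∀ X y : ℕ, 3 ≤ X → 2 ≤ y →
      {N : ℕ | Odd N ∧ N.Perfect ∧ N ≤ X}.ncard ≤
        2 * Nat.log 3 X ^ (((Finset.Icc 3 y).filter Nat.Prime).card + 2) *
          (((Nat.log y X + 1) / 2 + 1) * 2 ^ ((Nat.log y X + 1) / 2))) ∧
    (∀ ε : ℝ, 0 < ε → ∃ X₀ : ℕ, ∀ X : ℕ, X₀ ≤ X →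
      ({N : ℕ | Odd N ∧ N.Perfect ∧ N ≤ X}.ncard : ℝ) ≤
        (X : ℝ) ^ ((Real.log 2 / 2 + ε) / Real.log (Real.log X))) :=
  ⟨explicit, asymptotic⟩

end Pool.Agent.Results.MP_f02ea4_nt.WirsingConstant
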